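import Pool.Agent.Helper65.Gen3.Goals

/-! Packet G3-HARD of project Gen3 (helper65, MP_c578c8_lc). -/

set_option autoImplicit false

namespace Pool.Agent.Helper30.Gen3

open Pool.Agent.Helper65.LinSpace Pool.Agent.Helper65.Gen3 Finset
open Pool.Agent.Helper78.Avg (num_lt pow_le_num ncard_words lt01_le_one ifz_le_one
  ne_zero_iff_lt01 two_le_rpow_half)

variable {U : ℕ → ℕ → ℕ → ℕ} {k : ℕ}

theorem hid_spec {x : ℕ}
    (h : ∃ s < pP (Nat.log 2 x) ^ (2 * k), badN U k x s = 0) :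
    badN U k x (hid U k x) = 0 ∧ hid U k x < pP (Nat.log 2 x) ^ (2 * k) := by
  classical
  obtain ⟨h1, h1'⟩ := Nat.find_spec h
  have h2 : ∀ j < Nat.find h, ifz (badN U k x j) 1 0 = 0 := fun j hj => by
    refine ifz_ne (fun h3 => ?_) _ _
    exact Nat.find_min h hj ⟨lt_trans hj h1, h3⟩
  have h3 : hid U k x = Nat.find h := by
    unfold hid
    refine sum_lt_ind h1.le fun i hi => ?_
    by_cases h4 : i < Nat.find h
    · rw [if_pos h4, sum_eq_zero fun j hj => h2 j (by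
        have := mem_range.1 hj
        omega)]
      rfl
    · rw [if_neg h4]
      refine ifz_ne (fun h5 => ?_) _ _
      have h6 := sum_eq_zero_iff.1 h5 _ (mem_range.2 (show Nat.find h < i + 1 by omega))
      rw [h1'] at h6
      exact absurd h6 (by simp [ifz])
  rw [h3]
  exact ⟨h1', h1⟩

theorem pow_sub (k p q : ℕ) :
    ((((p - q) + (q - p)) ^ (2 * k) : ℕ) : ℤ) = ((p : ℤ) - q) ^ (2 * k) := by
  rcases le_total p q with h | h
  · rw [Nat.sub_eq_zero_of_le h, zero_add]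
    push_cast [h]
    rw [pow_mul, pow_mul]
    congr 1
    ring
  · rw [Nat.sub_eq_zero_of_le h, add_zero]
    push_cast [h]
    rfl

theorem vio_eq_zero {x e a s : ℕ} (he : e ≤ Nat.log 2 x) (ha : Nat.log 2 a ≤ k * Nat.log 2 x) :
    vio U k x e a s = 0 ↔ (2 ^ Nat.log 2 x - 2 * (disN U k x e a s : ℤ)) ^ (2 * k) ≤
      (wt k (Nat.log 2 x) e a : ℤ) := by
  have h1 : wtN k x e a = wt k (Nat.log 2 x) e a := by
    unfold wtN wt
    rw [min_eq_left ha, min_eq_left he]
  unfold vio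
  rw [h1]
  have h2 := pow_sub k (2 ^ Nat.log 2 x) (2 * disN U k x e a s)
  push_cast at h2
  rw [← h2]
  unfold lt01
  split_ifs with h3
  · simp only [false_iff, not_le]
    exact_mod_cast h3
  · simp only [true_iff]
    exact_mod_cast not_lt.1 h3

theorem hid_good (hG : GOOD_stmt) (hk : 0 < k) (x : ℕ) {e a : ℕ} (he : e ≤ Nat.log 2 x)
    (ha : a < 2 ^ (k * Nat.log 2 x + 1)) :
    (2 ^ Nat.log 2 x - 2 * (disN U k x e a (hid U k x) : ℤ)) ^ (2 * k) ≤
      (wt k (Nat.log 2 x) e a : ℤ) := by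
  have hlog : ∀ a < 2 ^ (k * Nat.log 2 x + 1), Nat.log 2 a ≤ k * Nat.log 2 x := by
    intro a ha
    rcases Nat.eq_zero_or_pos a with h | h
    · rw [h]
      simp
    · have := (Nat.log_lt_iff_lt_pow (b := 2) (by norm_num) (by omega)).2 ha
      omega
  obtain ⟨hp1, hp2, -⟩ := nextPrime_spec (m := 2 ^ Nat.log 2 x + 2) (by positivity)
  have hpos : 0 < 2 ^ Nat.log 2 x := by positivity
  obtain ⟨s, hs, hgood⟩ := hG k (Nat.log 2 x) (pP (Nat.log 2 x)) hk hp1
    (by unfold pP; omega) (by unfold pP; omega)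
    (fun e a z => lt01 0 (U e a (2 ^ Nat.log 2 x + z)))
  have h1 : badN U k x s = 0 := by
    unfold badN
    refine sum_eq_zero fun e he => sum_eq_zero fun a ha => ?_
    have he' := mem_range.1 he
    have ha' := mem_range.1 ha
    exact (vio_eq_zero (by omega) (hlog a ha')).2 (hgood e he' a ha')
  obtain ⟨h2, _⟩ := hid_spec ⟨s, hs, h1⟩
  unfold badN at h2
  rw [sum_eq_zero_iff] at h2
  have h3 := h2 e (mem_range.2 (by omega))
  rw [sum_eq_zero_iff] at h3
  exact (vio_eq_zero he (hlog a ha)).1 (h3 a (mem_range.2 ha))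

theorem disN_congr {x x' : ℕ} (h : Nat.log 2 x = Nat.log 2 x') (e a s : ℕ) :
    disN U k x e a s = disN U k x' e a s := by
  unfold disN
  rw [h]

theorem hid_congr {x x' : ℕ} (h : Nat.log 2 x = Nat.log 2 x') : hid U k x = hid U k x' := by
  have h1 : ∀ e a s, vio U k x e a s = vio U k x' e a s := fun e a s => by
    unfold vio wtN
    rw [disN_congr h, h]
  have h2 : ∀ s, badN U k x s = badN U k x' s := fun s => by
    unfold badN
    rw [h]
    exact sum_congr rfl fun e _ => sum_congr rfl fun a _ => h1 e a s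
  unfold hid
  rw [h]
  simp only [h2]

theorem mem_hL (w : List Bool) :
    w ∈ hL U k ↔ hs (pP w.length) (2 * k) (hid U k (2 ^ w.length)) (num w - 2 ^ w.length) % 2 = 1 := by
  unfold hL
  rw [Set.mem_ofPred_eq, hid_congr (x := num w) (x' := 2 ^ w.length)]
  rw [log_num, Nat.log_pow (by norm_num)]

/-- The number of agreements and the number of disagreements. -/
theorem agree_add (e a n : ℕ) :
    {w : List Bool | w.length = n ∧ (U e a (num w) ≠ 0 ↔ w ∈ hL U k)}.ncard +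
      disN U k (2 ^ n) e a (hid U k (2 ^ n)) = 2 ^ n := by
  classical
  have h1 : {w : List Bool | w.length = n ∧ (U e a (num w) ≠ 0 ↔ w ∈ hL U k)} =
      {w : List Bool | w.length = n ∧
        (lt01 0 (U e a (num w)) + hs (pP n) (2 * k) (hid U k (2 ^ n)) (num w - 2 ^ n)) % 2 = 0} := by
    ext w
    simp only [Set.mem_ofPred_eq]
    refine and_congr_right fun hw => ?_
    rw [mem_hL, hw]
    have h2 := ne_zero_iff_lt01 (U e a (num w))
    rw [h2]
    have h3 := lt01_le_one 0 (U e a (num w))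
    omega
  rw [h1, ncard_words n fun y =>
    (lt01 0 (U e a y) + hs (pP n) (2 * k) (hid U k (2 ^ n)) (y - 2 ^ n)) % 2 = 0]
  unfold disN
  rw [Nat.log_pow (by norm_num), card_filter, ← sum_add_distrib]
  have h2 : ∀ z ∈ range (2 ^ n), (if (lt01 0 (U e a (2 ^ n + z)) +
      hs (pP n) (2 * k) (hid U k (2 ^ n)) (2 ^ n + z - 2 ^ n)) % 2 = 0 then 1 else 0) +
      (lt01 0 (U e a (2 ^ n + z)) + hs (pP n) (2 * k) (hid U k (2 ^ n)) z) % 2 = 1 := by
    intro z _
    rw [Nat.add_sub_cancel_left]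
    split_ifs <;> omega
  rw [sum_congr rfl h2]
  simp

theorem agree_compl (e a n : ℕ) :
    {w : List Bool | w.length = n ∧ (U e a (num w) ≠ 0 ↔ w ∈ (hL U k)ᶜ)}.ncard =
      disN U k (2 ^ n) e a (hid U k (2 ^ n)) := by
  classical
  have h1 : {w : List Bool | w.length = n ∧ (U e a (num w) ≠ 0 ↔ w ∈ (hL U k)ᶜ)} =
      {w : List Bool | w.length = n ∧
        (lt01 0 (U e a (num w)) + hs (pP n) (2 * k) (hid U k (2 ^ n)) (num w - 2 ^ n)) % 2 = 1} := by
    ext w
    simp only [Set.mem_ofPred_eq, Set.mem_compl_iff]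
    refine and_congr_right fun hw => ?_
    rw [mem_hL, hw]
    have h2 := ne_zero_iff_lt01 (U e a (num w))
    rw [h2]
    have h3 := lt01_le_one 0 (U e a (num w))
    omega
  rw [h1, ncard_words n fun y =>
    (lt01 0 (U e a y) + hs (pP n) (2 * k) (hid U k (2 ^ n)) (y - 2 ^ n)) % 2 = 1]
  unfold disN
  rw [Nat.log_pow (by norm_num), card_filter]
  refine sum_congr rfl fun z _ => ?_
  rw [Nat.add_sub_cancel_left]
  split_ifs <;> omega

theorem disN_le (e a n s : ℕ) : disN U k (2 ^ n) e a s ≤ 2 ^ n := by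
  unfold disN
  rw [Nat.log_pow (by norm_num)]
  calc _ ≤ ∑ z ∈ range (2 ^ n), 1 := sum_le_sum fun z _ => by omega
    _ = _ := by simp

theorem aux (A B C D : ℝ) (n : ℕ) :
    (2 * (A * B * C * D)) ^ n = A ^ n * C ^ n * (D ^ n * (2 * B) ^ n) := by
  rw [← mul_pow, ← mul_pow, ← mul_pow]
  congr 1
  ring

/-- The correlation is small for all devices, all advice and all lengths. -/
theorem abs_dis_le (hG : GOOD_stmt) (hk : 0 < k) (e n : ℕ) (a : List Bool) :
    |(2 : ℝ) ^ n / 2 - disN U k (2 ^ n) e (num a) (hid U k (2 ^ n))| ≤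
      (2 * k) ^ 2 * 2 ^ (e + 2) * ((a.length : ℝ) + 1) *
          2 ^ (((n : ℝ) + a.length / k) / 2) := by
  set D := disN U k (2 ^ n) e (num a) (hid U k (2 ^ n)) with hD
  have hDle : (D : ℝ) ≤ 2 ^ n := by exact_mod_cast disN_le e (num a) n _
  have hD0 : (0 : ℝ) ≤ D := Nat.cast_nonneg _
  have htriv : |(2 : ℝ) ^ n / 2 - D| ≤ 2 ^ n / 2 := by
    rw [abs_le]
    constructor <;> linarith
  have hn0 : (0 : ℝ) ≤ n := Nat.cast_nonneg n
  have hm0 : (0 : ℝ) ≤ a.length := Nat.cast_nonneg _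
  have hk1 : (1 : ℝ) ≤ k := by exact_mod_cast hk
  have hk0 : (0 : ℝ) < k := by linarith
  have hK : (1 : ℝ) ≤ (2 * (k : ℝ)) ^ 2 := by nlinarith
  have h1 : (1 : ℝ) ≤ 2 ^ (((n : ℝ) + a.length / k) / 2) := two_le_rpow_half (by positivity)
  have h2 : (1 : ℝ) ≤ 2 ^ (e + 2) := one_le_pow₀ (by norm_num)
  by_cases hen : n < e
  · have h3 : (2 : ℝ) ^ n ≤ 2 ^ (e + 2) := pow_le_pow_right₀ (by norm_num) (by omega)
    have h4 : 1 * (2 : ℝ) ^ (e + 2) * 1 * 1 ≤
        (2 * k) ^ 2 * 2 ^ (e + 2) * ((a.length : ℝ) + 1) *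
          2 ^ (((n : ℝ) + a.length / k) / 2) := by
      gcongr
      linarith
    have h5 : (0 : ℝ) ≤ 2 ^ n := by positivity
    linarith
  by_cases ham : k * n < a.length
  · have h3 : (2 : ℝ) ^ n ≤ 2 ^ (((n : ℝ) + a.length / k) / 2) := by
      rw [← Real.rpow_natCast 2 n]
      refine Real.rpow_le_rpow_of_exponent_le (by norm_num) ?_
      have h6 : (k : ℝ) * n ≤ a.length := by exact_mod_cast ham.le
      have h7 : (n : ℝ) ≤ a.length / k := by
        rw [le_div_iff₀ hk0]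
        linarith
      linarith
    have h4 : 1 * 1 * 1 * (2 : ℝ) ^ (((n : ℝ) + a.length / k) / 2) ≤
        (2 * k) ^ 2 * 2 ^ (e + 2) * ((a.length : ℝ) + 1) *
          2 ^ (((n : ℝ) + a.length / k) / 2) := by
      gcongr
      linarith
    have h5 : (0 : ℝ) ≤ 2 ^ n := by positivity
    linarith
  push Not at hen ham
  have hlog : Nat.log 2 (2 ^ n) = n := Nat.log_pow (by norm_num) n
  have hg := hid_good (U := U) hG hk (2 ^ n) (e := e) (a := num a) (by omega) (by
    rw [hlog]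
    exact lt_of_lt_of_le (num_lt a) (Nat.pow_le_pow_right (by norm_num) (by omega)))
  rw [hlog, ← hD] at hg
  have hg2 : ((2 : ℝ) ^ n - 2 * D) ^ (2 * k) ≤ (wt k n e (num a) : ℝ) := by exact_mod_cast hg
  obtain ⟨X, hX⟩ : ∃ X : ℝ, X = (2 * k) ^ 2 * 2 ^ (e + 2) * ((a.length : ℝ) + 1) *
          2 ^ (((n : ℝ) + a.length / k) / 2) := ⟨_, rfl⟩
  have hX0 : 0 ≤ X := by
    rw [hX]
    positivity
  have hw : (wt k n e (num a) : ℝ) ≤ (2 * X) ^ (2 * k) := by
    unfold wt
    rw [log_num, hX]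
    push_cast
    have h3 : ((2 : ℝ) ^ (((n : ℝ) + a.length / k) / 2)) ^ (2 * k) = 2 ^ (k * n + a.length) := by
      rw [← Real.rpow_natCast, ← Real.rpow_mul (by norm_num), ← Real.rpow_natCast]
      congr 1
      push_cast
      field_simp
    have h5 : (2 * ((2 * (k : ℝ)) ^ 2 * 2 ^ (e + 2) * ((a.length : ℝ) + 1) *
          2 ^ (((n : ℝ) + a.length / k) / 2))) ^ (2 * k) =
        ((2 * (k : ℝ)) ^ 2) ^ (2 * k) * ((a.length : ℝ) + 1) ^ (2 * k) *
          (2 ^ (k * n + a.length) * (2 * 2 ^ (e + 2)) ^ (2 * k)) := by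
      rw [← h3]
      exact aux _ _ _ _ _
    rw [h5]
    have h6 : (2 * (k : ℝ)) ^ (2 * k + 1) ≤ ((2 * (k : ℝ)) ^ 2) ^ (2 * k) := by
      rw [← pow_mul]
      exact pow_le_pow_right₀ (by linarith) (by nlinarith)
    have h7 : ((a.length : ℝ) + 1) ^ 2 ≤ ((a.length : ℝ) + 1) ^ (2 * k) :=
      pow_le_pow_right₀ (by linarith) (by omega)
    have h8 : (2 : ℝ) ^ (k * n + a.length + 2 * e + 4) ≤
        2 ^ (k * n + a.length) * (2 * 2 ^ (e + 2)) ^ (2 * k) := by
      have h9 : (2 : ℝ) ^ (k * n + a.length) * (2 * 2 ^ (e + 2)) ^ (2 * k) =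
          2 ^ (k * n + a.length + (e + 3) * (2 * k)) := by
        rw [pow_add _ (k * n + a.length), pow_mul 2 (e + 3) (2 * k)]
        congr 2
        ring
      rw [h9]
      refine pow_le_pow_right₀ (by norm_num) ?_
      nlinarith
    gcongr
  rw [← hX]
  have hev : ((2 : ℝ) ^ n - 2 * D) ^ (2 * k) = |(2 : ℝ) ^ n - 2 * D| ^ (2 * k) :=
    (Even.pow_abs (even_two_mul k) _).symm
  rw [hev] at hg2
  have h10 : |(2 : ℝ) ^ n - 2 * D| ≤ 2 * X :=
    le_of_pow_le_pow_left₀ (by omega) (by positivity) (hg2.trans hw)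
  have h4 : (2 : ℝ) ^ n - 2 * D = 2 * (2 ^ n / 2 - D) := by ring
  rw [h4, abs_mul, abs_of_nonneg (show (0 : ℝ) ≤ 2 by norm_num)] at h10
  linarith

theorem hard (hG : GOOD_stmt) (hL : LSH_stmt) : HARD_stmt := by
  intro U k hk hU
  refine ⟨Pool.Agent.Helper65.Gen3.hL U k, hL U k hU, fun e n a => ?_⟩
  have h := abs_dis_le (U := U) hG hk e n a
  have h1 := agree_add (U := U) (k := k) e (num a) n
  have h2 : ({w : List Bool | w.length = n ∧
      (U e (num a) (num w) ≠ 0 ↔ w ∈ Pool.Agent.Helper65.Gen3.hL U k)}.ncard : ℝ) +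
      disN U k (2 ^ n) e (num a) (hid U k (2 ^ n)) = 2 ^ n := by exact_mod_cast h1
  constructor
  · have h3 : ({w : List Bool | w.length = n ∧
      (U e (num a) (num w) ≠ 0 ↔ w ∈ Pool.Agent.Helper65.Gen3.hL U k)}.ncard : ℝ) - 2 ^ n / 2 =
      2 ^ n / 2 - disN U k (2 ^ n) e (num a) (hid U k (2 ^ n)) := by linarith
    rw [h3]
    exact h
  · rw [agree_compl, abs_sub_comm]
    exact h

end Pool.Agent.Helper30.Gen3
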